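import Mathlib
import Pool.Agent.Helper669.KCohen

set_option autoImplicit false

/-!
# Cohen reals indexed by a set whose cardinality is a strong limit of countable cofinality
-/

namespace Pool.Agent.Y582.CR

open Cardinal Pool.Agent.Helper669.Forcing Pool.Agent.Helper669.K

/-- above every cardinal there is a strong limit cardinal of countable cofinality -/
theorem exists_singular_omega (κ : Cardinal.{0}) :
    ∃ (L : Type) (ρ : L → ℕ), κ < #L ∧ ℵ₀ ≤ #L ∧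
      (∀ μ < #L, 2 ^ μ < #L) ∧ ∀ i, #{x | ρ x ≤ i} < #L := by
  classical
  let o : Ordinal.{0} := κ.ord + Ordinal.omega0
  let T : ℕ → Cardinal.{0} := fun i => beth (κ.ord + (i : Ordinal.{0}))
  have hTlt : ∀ i, T i < beth o := fun i => beth_lt_beth.2 (by
    exact (add_lt_add_iff_left _).2 (Ordinal.natCast_lt_omega0 i))
  have hTmono : ∀ i j : ℕ, i ≤ j → T i ≤ T j := by
    intro i j h
    refine beth_le_beth.2 (add_le_add le_rfl ?_)
    exact_mod_cast h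
  have hlim1 : Order.IsSuccLimit (Ordinal.omega0 : Ordinal.{0}) := Ordinal.isSuccLimit_omega0
  have hlim : Order.IsSuccLimit o := Ordinal.isSuccLimit_add κ.ord hlim1
  have hinf : ℵ₀ ≤ beth o := aleph0_le_beth o
  have h1 : ℵ₀ < beth o := (aleph0_le_beth _).trans_lt (hTlt 0)
  let L : Type := Σ i : ℕ, (T i).out
  have hLs : #L = Cardinal.sum T := by
    simp [L, Cardinal.mk_sigma]
  have hL1 : #L ≤ beth o := by
    rw [hLs]
    refine (Cardinal.sum_le_mk_mul_iSup T).trans ?_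
    have h3 : (⨆ i, T i) ≤ beth o := ciSup_le' fun i => (hTlt i).le
    calc #ℕ * ⨆ i, T i ≤ beth o * beth o := mul_le_mul' (by rw [mk_nat]; exact h1.le) h3
      _ = beth o := Cardinal.mul_eq_self hinf
  have hTL : ∀ i, T i ≤ #L := by
    intro i
    rw [hLs]
    exact Cardinal.le_sum T i
  have hL2 : beth o ≤ #L := by
    rw [beth_limit hlim]
    refine ciSup_le' ?_
    rintro ⟨a, ha⟩
    have ha' : a < κ.ord + Ordinal.omega0 := ha
    by_cases hk : κ.ord ≤ a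
    · have h4 : κ.ord + (a - κ.ord) = a := Ordinal.add_sub_cancel_of_le hk
      have h5 : a - κ.ord < Ordinal.omega0 := by
        rw [← h4] at ha'
        exact (add_lt_add_iff_left _).1 ha'
      obtain ⟨i, hi⟩ := Ordinal.lt_omega0.1 h5
      have h7 : T i = beth a := by
        simp only [T]
        rw [← hi, h4]
      rw [← h7]
      exact hTL i
    · refine le_trans ?_ (hTL 0)
      simp only [T]
      rw [Nat.cast_zero, add_zero]
      exact beth_le_beth.2 (not_le.1 hk).le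
  have hL : #L = beth o := le_antisymm hL1 hL2
  refine ⟨L, Sigma.fst, ?_, ?_, ?_, ?_⟩
  · rw [hL]
    refine (le_beth_ord κ).trans_lt (beth_lt_beth.2 ?_)
    have : κ.ord + 0 < κ.ord + Ordinal.omega0 := (add_lt_add_iff_left _).2 hlim1.bot_lt
    rw [add_zero] at this
    exact this
  · rw [hL]; exact hinf
  · rw [hL]
    intro μ hμ
    have := (isStrongLimit_beth (o := o)).2 hlim.isSuccPrelimit
    exact this.isStrongPrelimit hμ
  · intro i
    rw [hL]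
    have hemb : ∀ j : ℕ, j ≤ i → Nonempty ((T j).out ↪ (T i).out) := fun j hj =>
      Cardinal.out_embedding.1 (hTmono j i hj)
    let f : {x : L | x.1 ≤ i} → ℕ × (T i).out := fun x =>
      (x.1.1, (hemb x.1.1 x.2).some x.1.2)
    have hf : Function.Injective f := by
      rintro ⟨⟨a, b⟩, hx⟩ ⟨⟨c, d⟩, hy⟩ h
      simp only [f, Prod.mk.injEq] at h
      obtain ⟨h8, h9⟩ := h
      subst h8
      have := (hemb a hx).some.injective h9
      subst this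
      rfl
    have h10 : #{x : L | x.1 ≤ i} ≤ #(ℕ × (T i).out) := Cardinal.mk_le_of_injective hf
    refine h10.trans_lt ?_
    rw [Cardinal.mk_prod]
    simp only [Cardinal.lift_id, Cardinal.mk_out]
    exact Cardinal.mul_lt_of_lt hinf (by rw [mk_nat]; exact h1) (hTlt i)

theorem power_le_fun_omega {L : Type} (ρ : L → ℕ)
    (h2 : ∀ μ < #L, 2 ^ μ < #L) (hρ : ∀ i, #{x | ρ x ≤ i} < #L) :
    2 ^ #L ≤ #(ℕ → L) := by
  classical
  have hg : ∀ i, Nonempty (Set {x | ρ x ≤ i} ↪ L) := by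
    intro i
    have h := (h2 _ (hρ i)).le
    rw [← Cardinal.mk_set] at h
    exact h
  let g := fun i => (hg i).some
  rw [← Cardinal.mk_set]
  refine Cardinal.mk_le_of_injective (f := fun s : Set L => fun i => g i {x | (x : L) ∈ s}) ?_
  intro s t hst
  ext x
  have h := congrFun hst (ρ x)
  have h' := (g (ρ x)).injective h
  have h'' := Set.ext_iff.1 h' ⟨x, (le_refl (ρ x) : ρ x ≤ ρ x)⟩
  simpa using h''

/-- the rows of finite conditions repeat -/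
theorem exists_rows_fin {κ : Cardinal.{0}} (hκ : κ.IsRegular) (hκ0 : ℵ₀ < κ) {L : Type}
    (ρ : L → ℕ) (hL : ℵ₀ ≤ #L) (hκL : κ < #L)
    (h2 : ∀ μ < #L, 2 ^ μ < #L) (hρ : ∀ i, #{x | ρ x ≤ i} < #L) {N : Type} (hN : #N = 2 ^ #L)
    {Θ : Type} (hΘ : #Θ < κ)
    (D : N → κ.ord.ToType → CC L) (τ : N → κ.ord.ToType → Θ) :
    ∃ (A : Set N) (X : Set κ.ord.ToType) (d : κ.ord.ToType → CC L) (t : Θ),
      #A = #N ∧ #X = κ ∧ ∀ ξ ∈ A, ∀ α ∈ X, D ξ α = d α ∧ τ ξ α = t := by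
  classical
  have hK : #κ.ord.ToType = κ := mk_ord_toType _
  have hr : ∀ ξ α, ∃ r : ℕ, ∀ x ∈ (D ξ α).g, ρ x.1 ≤ r := by
    intro ξ α
    obtain ⟨r, hr⟩ := ((D ξ α).fin.image fun x : L × (ℕ × Bool) => ρ x.1).bddAbove
    exact ⟨r, fun x hx => hr ⟨x, hx, rfl⟩⟩
  choose r hr using hr
  have hIdx : #(ℕ × Θ) < κ := by
    rw [mk_prod, lift_id, lift_id, mk_nat]
    exact mul_lt_of_lt hκ.aleph0_le hκ0 hΘ
  have hi : ∀ ξ, ∃ i : ℕ × Θ, κ ≤ #((fun α => (r ξ α, τ ξ α)) ⁻¹' {i}) := by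
    intro ξ
    refine infinite_pigeonhole_card (fun α => (r ξ α, τ ξ α)) κ (by rw [hK]) hκ.aleph0_le ?_
    rw [hκ.cof_ord]; exact hIdx
  choose i hi using hi
  let S : ℕ → Type := fun j => {p : CC L // ∀ x ∈ p.g, x.1 ∈ {x | ρ x ≤ j}}
  have hS : ∀ j, #(S j) < #L := fun j =>
    lt_of_le_of_lt (CC.mk_supported {x | ρ x ≤ j}) (max_lt (hρ j) (hκ.aleph0_le.trans_lt hκL))
  have hprod : ∀ j, #(Set κ.ord.ToType × (κ.ord.ToType → Set (S j))) ≤ #L := by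
    intro j
    have e1 : #(Set κ.ord.ToType × (κ.ord.ToType → Set (S j))) =
        2 ^ κ * 2 ^ (#(S j) * κ) := by
      rw [mk_prod, lift_id, lift_id, mk_set, hK, ← power_def, mk_set, hK, power_mul]
    rw [e1]
    exact (mul_lt_of_lt hL (h2 κ hκL) (h2 _ (mul_lt_of_lt hL (hS j) hκL))).le
  let T : Type := Σ j : ℕ × Θ,
    (Set κ.ord.ToType × (κ.ord.ToType → Set (S j.1)))
  have hT : #T ≤ #L := by
    have e1 : #T = Cardinal.sum (fun j : ℕ × Θ =>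
      #(Set κ.ord.ToType × (κ.ord.ToType → Set (S j.1)))) := mk_sigma _
    rw [e1]
    refine (sum_le_sum _ (fun _ => #L) (fun j : ℕ × Θ => hprod j.1)).trans ?_
    rw [sum_const']
    calc #(ℕ × Θ) * #L ≤ #L * #L := mul_le_mul' (hIdx.le.trans hκL.le) le_rfl
      _ = #L := mul_eq_self hL
  let Φ : N → T := fun ξ => ⟨i ξ, ((fun α => (r ξ α, τ ξ α)) ⁻¹' {i ξ}, fun α => {p | p.1 = D ξ α})⟩
  have hNinf : ℵ₀ ≤ #N := by
    rw [hN]; exact hL.trans (cantor _).le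
  obtain ⟨t, ht⟩ := infinite_pigeonhole_card Φ #N le_rfl hNinf (by
    rw [hN]
    exact hT.trans_lt (lt_cof_ord_power hL one_lt_two))
  have hne : (Φ ⁻¹' {t}).Nonempty := by
    by_contra hcon
    rw [Set.not_nonempty_iff_eq_empty] at hcon
    rw [hcon, mk_emptyCollection] at ht
    exact absurd (hNinf.trans ht) (not_le.mpr aleph0_pos)
  obtain ⟨ξ₀, hξ₀⟩ := hne
  have hkey : ∀ ξ, Φ ξ = Φ ξ₀ → i ξ = i ξ₀ ∧
      (fun α => (r ξ α, τ ξ α)) ⁻¹' {i ξ} = (fun α => (r ξ₀ α, τ ξ₀ α)) ⁻¹' {i ξ₀} ∧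
      ∀ α, (fun α => (r ξ₀ α, τ ξ₀ α)) α = i ξ₀ → D ξ α = D ξ₀ α := by
    intro ξ h
    have h1 : i ξ = i ξ₀ := congrArg Sigma.fst h
    have hgen : ∀ (a b : T), a = b → a.2.1 = b.2.1 ∧
        ∀ α, (Subtype.val '' (a.2.2 α) : Set (CC L)) = Subtype.val '' (b.2.2 α) := by
      rintro a b rfl
      exact ⟨rfl, fun _ => rfl⟩
    obtain ⟨h3, h4⟩ := hgen _ _ h
    refine ⟨h1, h3, fun α hα => ?_⟩
    have hm : D ξ₀ α ∈ (Subtype.val '' ({p : S (i ξ₀).1 | p.1 = D ξ₀ α}) : Set (CC L)) := by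
      refine ⟨⟨D ξ₀ α, fun x hx => ?_⟩, rfl, rfl⟩
      have h5 := hr ξ₀ α x hx
      have h6 : r ξ₀ α = (i ξ₀).1 := congrArg Prod.fst hα
      rw [h6] at h5
      exact h5
    have h7 : D ξ₀ α ∈ (Subtype.val '' ((Φ ξ).2.2 α) : Set (CC L)) := by
      rw [h4 α]; exact hm
    obtain ⟨p, hp, hp'⟩ := h7
    have hp2 : p.1 = D ξ α := hp
    rw [← hp2]
    exact hp'
  refine ⟨Φ ⁻¹' {t}, (fun α => (r ξ₀ α, τ ξ₀ α)) ⁻¹' {i ξ₀}, D ξ₀, (i ξ₀).2,
    le_antisymm (mk_set_le _) ht, le_antisymm ((mk_set_le _).trans_eq hK) (hi ξ₀), ?_⟩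
  intro ξ hξ α hα
  have hΦ : Φ ξ = Φ ξ₀ := by
    rw [show Φ ξ = t from hξ, show Φ ξ₀ = t from hξ₀]
  obtain ⟨h1, h3, h4⟩ := hkey ξ hΦ
  refine ⟨h4 α hα, ?_⟩
  rw [← h3] at hα
  have h5 : τ ξ α = (i ξ).2 := congrArg Prod.snd hα
  rw [h5, h1]

/-- a countable set of elements of `κ` is bounded -/
theorem exists_bound_countable {κ : Cardinal.{0}} (hκ : κ.IsRegular) (hκ0 : ℵ₀ < κ)
    (s : Set κ.ord.ToType) (hs : s.Countable) : ∃ b, ∀ a ∈ s, a < b := by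
  by_contra hcon
  push Not at hcon
  have hcf : IsCofinal s := fun r => by
    obtain ⟨a, ha, hra⟩ := hcon r
    exact ⟨a, ha, hra⟩
  have h1 := Order.cof_le hcf
  rw [Ordinal.cof_toType, hκ.cof_ord] at h1
  have h2 : #s ≤ ℵ₀ := Cardinal.le_aleph0_iff_set_countable.mpr hs
  exact absurd (h1.trans h2) (not_le.mpr hκ0)

/-- Some condition forces that the generic filter contains `d γ` for unboundedly many `γ ∈ X`. -/
theorem exists_often {κ : Cardinal.{0}} (hκ : κ.IsRegular) (hκ0 : ℵ₀ < κ) {Q : Type} [Preorder Q]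
    (hcc : ∀ (ι : Type) (f : ι → Q), ℵ₀ < #ι → ∃ i j, i ≠ j ∧ ∃ r, r ≤ f i ∧ r ≤ f j)
    {X : Set κ.ord.ToType} (hX : #X = κ) (d : κ.ord.ToType → Q) :
    ∃ γ₀ ∈ X, ∃ p ≤ d γ₀, ∀ q ≤ p, ∀ β, ∃ r ≤ q, ∃ γ ∈ X, β ≤ γ ∧ r ≤ d γ := by
  classical
  by_contra hcon
  push Not at hcon
  have h1 : ∀ γ : X, ∃ q ≤ d γ.1, ∃ β, ∀ r ≤ q, ∀ γ' ∈ X, β ≤ γ' → ¬ r ≤ d γ' :=
    fun γ => hcon γ.1 γ.2 _ le_rfl
  choose q hq β hβ using h1
  let F : Set (Set X) := {S | S.Pairwise fun a b => ¬ ∃ r, r ≤ q a ∧ r ≤ q b}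
  obtain ⟨S, hS⟩ : ∃ m, Maximal (· ∈ F) m := by
    refine zorn_subset F ?_
    intro c hc hchain
    refine ⟨⋃₀ c, ?_, fun s hs => Set.subset_sUnion_of_mem hs⟩
    show (⋃₀ c).Pairwise _
    rw [Set.pairwise_sUnion hchain.directedOn]
    exact fun s hs => hc hs
  have hScount : S.Countable := by
    rw [← Cardinal.le_aleph0_iff_set_countable]
    by_contra hc
    rw [not_le] at hc
    obtain ⟨a, b, hab, h⟩ := hcc S (fun a => q a.1) hc
    exact hS.prop a.2 b.2 (fun h' => hab (Subtype.ext h')) h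
  obtain ⟨b, hb⟩ := exists_bound_countable hκ hκ0
    ((fun γ : X => γ.1) '' S ∪ β '' S) ((hScount.image _).union (hScount.image _))
  obtain ⟨γ, hγ, hbγ⟩ := CC.unbounded hX b
  have hnot : (⟨γ, hγ⟩ : X) ∉ S := fun h => by
    have := hb γ (Or.inl ⟨⟨γ, hγ⟩, h, rfl⟩)
    exact absurd this (not_lt.2 hbγ)
  have hinc : ∀ a ∈ S, ∀ r, r ≤ q a → ¬ r ≤ q ⟨γ, hγ⟩ := by
    intro a ha r hr hr'
    have h3 : β a < b := hb _ (Or.inr ⟨a, ha, rfl⟩)
    exact hβ a r hr γ hγ (h3.le.trans hbγ) (hr'.trans (hq ⟨γ, hγ⟩))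
  have hins : insert (⟨γ, hγ⟩ : X) S ∈ F := by
    show (insert (⟨γ, hγ⟩ : X) S).Pairwise _
    refine Set.Pairwise.insert hS.prop ?_
    intro a ha _
    exact ⟨fun ⟨r, hr, hr'⟩ => hinc a ha r hr' hr, fun ⟨r, hr, hr'⟩ => hinc a ha r hr hr'⟩
  have h4 := hS.le_of_ge hins (Set.subset_insert _ _)
  exact hnot (h4 (Set.mem_insert _ _))

section

/-- The strong polarized relation for colourings with values in `Θ` in the generic extension: for
every colouring `c : X × Y → Θ` there are `A ⊆ X` and `B ⊆ Y` with `|A| = |X|`, `|B| = |Y|` and a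
colour `t` such that `c (x, y) = t` for all `x ∈ A` and `y ∈ B`. The colouring is given by the
named relation `c x y t`, which says that `c (x, y) = t`. -/
def PolarizedCol (P : Type) [Preorder P] (X Y Θ : Type) : Set P :=
  fall fun c : X → Y → Θ → Set P => fimp (fall fun x => IsFun (c x))
    (fex fun A : X → Set P => fex fun B : Y → Set P =>
      fand (HasFullSize A) (fand (HasFullSize B)
        (fex fun t : Θ => fall fun x => fall fun y =>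
          fimp (fand (meets (A x)) (meets (B y))) (meets (c x y t)))))

end

/-- the strong polarized relation with fewer than `κ` colours after adding Cohen reals -/
theorem polarizedCol_cohen {κ : Cardinal.{0}} (hκ : κ.IsRegular) (hκ0 : ℵ₀ < κ) {L : Type}
    (ρ : L → ℕ) (hL : ℵ₀ ≤ #L) (hκL : κ < #L)
    (h2 : ∀ μ < #L, 2 ^ μ < #L) (hρ : ∀ i, #{x | ρ x ≤ i} < #L) {N : Type} (hN : #N = 2 ^ #L)
    {Θ : Type} (hΘ : #Θ < κ) (x : CC L) : x ∈ PolarizedCol (CC L) N κ.ord.ToType Θ := by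
  classical
  have hcc : ∀ (ι : Type) (f : ι → CC L), ℵ₀ < #ι → ∃ i j, i ≠ j ∧ ∃ r, r ≤ f i ∧ r ≤ f j :=
    fun ι f hι => CC.ccc ι f hι
  have hreg : ∀ q : CC L, q ∈ StaysRegular (CC L) κ :=
    fun q => staysRegular_of_cc le_rfl hκ hκ0 hcc q
  have hNinf : ℵ₀ < #N := by
    rw [hN]
    exact hL.trans_lt (cantor _)
  intro c
  refine mem_fimp.2 fun p hp hfun => ?_
  have hdec : ∀ ξ α, ∃ r ≤ p, ∃ t, r ∈ meets (c ξ α t) := by
    intro ξ α
    obtain ⟨r, hr, t, ht⟩ := IsFun.total (R := c ξ) (hfun ξ) α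
    exact ⟨r, hr, t, ht⟩
  choose D hD τ hτ using hdec
  obtain ⟨A, X, d, t, hA, hX, hd⟩ := exists_rows_fin hκ hκ0 ρ hL hκL h2 hρ hN hΘ D τ
  obtain ⟨γ₀, hγ₀, p1, hp1, hoft⟩ := exists_often hκ hκ0 hcc hX d
  have hfullA : ∀ q : CC L, q ∈ HasFullSize fun ξ : N => {_p : CC L | ξ ∈ A} :=
    fun q => hasFullSize_ground hcc hNinf A hA q
  have hmA : ∀ {ξ : N} {q : CC L}, q ∈ meets {_p : CC L | ξ ∈ A} → ξ ∈ A := by
    intro ξ q h
    obtain ⟨_, _, t, ht, _⟩ := h q le_rfl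
    exact ht
  have hne : A.Nonempty := by
    by_contra hcon
    rw [Set.not_nonempty_iff_eq_empty] at hcon
    rw [hcon, mk_emptyCollection] at hA
    rw [← hA] at hNinf
    exact absurd (hNinf.trans_le zero_le_one) (not_lt.2 one_le_aleph0)
  obtain ⟨ξ₀, hξ₀⟩ := hne
  have hp1p : p1 ≤ p := hp1.trans (by
    rw [← (hd ξ₀ hξ₀ γ₀ hγ₀).1]
    exact hD ξ₀ γ₀)
  refine ⟨p1, hp1p, mem_fex.2 fun z1 hz1 => ⟨z1, le_rfl, fun ξ => {_p : CC L | ξ ∈ A},
    mem_fex.2 fun z hz => ⟨z, le_rfl, fun γ => {q : CC L | γ ∈ X ∧ q ≤ d γ}, hfullA z, ?_,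
      mem_fex.2 fun z2 hz2 => ⟨z2, le_rfl, t, ?_⟩⟩⟩⟩
  · refine hasFullSize_of_unbounded hκ0.le hreg _ _ fun q' hq' β' => ?_
    obtain ⟨r, hr, γ, hγ, hγ', hm⟩ := hoft q' (hq'.trans (hz.trans hz1)) β'
    exact ⟨r, hr, γ, hγ', meets_of_mem ⟨hγ, hm⟩⟩
  · intro ξ α
    refine mem_fimp.2 fun w hw h => ?_
    have hξ := hmA h.1
    have hdn : Down {q : CC L | α ∈ X ∧ q ≤ d α} :=
      fun a ha b hb => ⟨ha.1, hb.trans ha.2⟩
    obtain ⟨w', hw', hα, hm⟩ := exists_of_meets hdn h.2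
    obtain ⟨h5, h6⟩ := hd ξ hξ α hα
    refine ⟨w', hw', ?_⟩
    rw [← h6]
    rw [← h5] at hm
    exact down_meets _ _ (hτ ξ α) _ hm

/-- the power set of `κ` after adding Cohen reals -/
theorem powerSize_cohen_omega {κ : Cardinal.{0}} (hκ0 : ℵ₀ ≤ κ) {L : Type}
    (ρ : L → ℕ) (hL : ℵ₀ ≤ #L) (hκL : κ < #L)
    (h2 : ∀ μ < #L, 2 ^ μ < #L) (hρ : ∀ i, #{x | ρ x ≤ i} < #L) {N : Type} (hN : #N = 2 ^ #L)
    (x : CC L) : x ∈ PowerSize (CC L) κ.ord.ToType N := by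
  classical
  have hcc : ∀ (ι : Type) (f : ι → CC L), ℵ₀ < #ι → ∃ i j, i ≠ j ∧ ∃ r, r ≤ f i ∧ r ≤ f j :=
    fun ι f hι => CC.ccc ι f hι
  constructor
  · obtain ⟨φ⟩ : Nonempty (N ↪ (ℕ → L)) := by
      rw [← Cardinal.le_def, hN]
      exact power_le_fun_omega ρ h2 hρ
    obtain ⟨j⟩ : Nonempty (ℕ × ℕ ↪ κ.ord.ToType) := by
      rw [← Cardinal.le_def, mk_ord_toType]
      exact mk_le_aleph0.trans hκ0
    refine mem_fex.2 fun q _ => ⟨q, le_rfl, fun ξ b =>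
      {p : CC L | ∃ i n, j (i, n) = b ∧ (φ ξ i, (n, true)) ∈ p.g}, ?_⟩
    intro ξ ξ' hξ q1 _ hsame
    obtain ⟨r, hr, b, h1, h3⟩ := cohen_ne j j.injective (φ ξ) (φ ξ')
      (fun h => hξ (φ.injective h)) q1
    obtain ⟨r', hr', h4⟩ := mem_fimp.1 (hsame b).1 r hr h1
    exact h3 r' hr' h4
  · obtain ⟨g⟩ : Nonempty ({c : κ.ord.ToType → Set (CC L) // ∀ β, (c β).Countable} ↪ N) := by
      rw [← Cardinal.le_def, hN]
      exact mk_small_names hL (by rw [mk_ord_toType]; exact hκL.le)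
    have : Nonempty {c : κ.ord.ToType → Set (CC L) // ∀ β, (c β).Countable} :=
      ⟨⟨fun _ => ∅, fun _ => Set.countable_empty⟩⟩
    refine mem_fex.2 fun q _ => ⟨q, le_rfl, fun ξ => (Function.invFun g ξ).1, fun X => ?_⟩
    choose Nm hN1 hN2 using fun α => exists_nice (Q := CC L) (κ := ℵ₀) hcc (X α)
    have hcount : ∀ α, (Nm α).Countable := fun α => le_aleph0_iff_set_countable.1 (hN1 α)
    refine mem_fex.2 fun q1 _ => ⟨q1, le_rfl, g ⟨Nm, hcount⟩, ?_⟩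
    have h5 : Function.invFun g (g ⟨Nm, hcount⟩) = ⟨Nm, hcount⟩ :=
      Function.leftInverse_invFun g.injective _
    intro α
    change q1 ∈ fand (fimp (meets ((Function.invFun g (g ⟨Nm, hcount⟩)).1 α)) (meets (X α)))
      (fimp (meets (X α)) (meets ((Function.invFun g (g ⟨Nm, hcount⟩)).1 α)))
    rw [h5]
    exact ⟨mem_fimp.2 fun w _ hw => ⟨w, le_rfl, (hN2 α w).1 hw⟩,
      mem_fimp.2 fun w _ hw => ⟨w, le_rfl, (hN2 α w).2 hw⟩⟩

end Pool.Agent.Y582.CR
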