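import Mathlib
import Pool.Agent.Y582.CR.Rows
import Pool.Agent.Helper669.KPowB

set_option autoImplicit false

/-!
# The strong polarized relation with fewer than `κ` colours after the iteration over an
indestructible measurable cardinal
-/

namespace Pool.Agent.Y582.CR

open Cardinal Pool.Agent.Helper669.Forcing Pool.Agent.Helper669.K

section

variable {κ μ : Cardinal.{0}} {L R S I : Type} [LinearOrder L] [WellFoundedLT L] [Preorder R]
  [Preorder S] (st : R → S) (e : I → κ.ord.ToType → Set (Cond κ L (κ.ord.ToType × R) I × S))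
  {W : Wt κ L (κ.ord.ToType × R) I} (hW : ∀ α, W α = stage st e α (rel W α))

include hW in
/-- to promise a name which belongs to the measure -/
theorem exists_promise_of (hκ : ℵ₀ ≤ κ) (p : Cond κ L (κ.ord.ToType × R) I) (r : R) (α : L)
    (η : I) (x : PR (rel W α) × R) (hx : x ≤ pt W α p r) (h : x ∈ meets (UU st e W α η)) :
    ∃ p', Le W p' p ∧ ∃ r' ≤ r, (α, η) ∈ p'.E ∧ pt W α p' r' ∈ meets (UU st e W α η) := by
  have hle : Le W x.1.val (p.res α) := (le_PR st e hW _ _).1 hx.1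
  refine ⟨addE hκ (amal hκ x.1.val p α ∅ Set.finite_empty) α η,
    Le.trans' st e hW (addE_le _ _ _) (amal_le _ _ x.1.res_val hle fun z hz => absurd hz (by simp)),
    x.2, hx.2, Set.mem_insert _ _, ?_⟩
  rw [pt_eq (x := x) (by rw [addE_res, amal_res _ _ x.1.res_val le_rfl, x.1.res_val])]
  exact h

variable (hκ : κ.IsRegular) (h2 : ∀ μ < κ, 2 ^ μ < κ) (hRκ : #R ≤ κ) (hSκ : #S ≤ κ)
  (hR : DirClosed κ R)
  (hU : ∀ (α : L) (q : PR (rel W α) × R),
    q ∈ IsMeasure κ (theU κ κ.ord.ToType (PR (rel W α) × R)))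
  (hst : ∀ a b : R, a ≤ b → st a ≤ st b)
  (hlift : ∀ (r : R) (s : S), s ≤ st r → ∃ r' ≤ r, st r' = s)
  (hsurj : ∀ s : S, ∃ r : R, st r = s)
  (he : ∀ c : κ.ord.ToType → Set (Cond κ L (κ.ord.ToType × R) I × S), (∀ β, #(c β) ≤ κ) →
    ∃ η, e η = c)

include hW hκ hU hst hlift in
/-- The measure contains one of the classes of a colouring with fewer than `κ` colours. -/
theorem decide_colour {Θ : Type} (hΘ : #Θ < κ) (γ : L) (η : Θ → I)
    (hsupp : ∀ t β, ∀ y ∈ e (η t) β, Cond.res γ y.1 = y.1)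
    (p : Cond κ L (κ.ord.ToType × R) I) (r : R)
    (hcol : ∀ z : PW W × S, z ≤ (PW.mk W p, st r) → ∀ β, ∃ z' ≤ z, ∃ t,
      z' ∈ meets (P := PW W × S) (e (η t) β)) :
    ∃ x ≤ pt W γ p r, ∃ t, x ∈ meets (UU st e W γ (η t)) := by
  by_contra hcon
  push Not at hcon
  have hX : ∀ t, pt W γ p r ∈ meets (theU κ κ.ord.ToType (PR (rel W γ) × R)
      (nCompl (nm st e (rel W γ) (η t)))) := by
    intro t
    have h3 := ((hU γ (pt W γ p r)).2.1 (nm st e (rel W γ) (η t))).2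
    exact meets_of_dense' fun q hq => mem_fimp.1 h3 q hq
      (fun s hs hs' => hcon s (hs.trans hq) t hs')
  obtain ⟨x2, hx2, β, _, h⟩ := exists_point hκ.aleph0_le (hU γ) hΘ
    (fun t => nCompl (nm st e (rel W γ) (η t))) (pt W γ p r) hX ∅ (by
      rw [mk_eq_zero]; exact hκ.pos)
  have h' : ∀ t, x2 ∈ fnot (meets (nm st e (rel W γ) (η t) β)) := fun t =>
    meets_fnot (down_meets _) (h t)
  have hle : Le W x2.1.val (p.res γ) := (le_PR st e hW _ _).1 hx2.1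
  have hp' : Le W (amal hκ.aleph0_le x2.1.val p γ ∅ Set.finite_empty) p :=
    amal_le _ _ x2.1.res_val hle (fun z hz => absurd hz (by simp))
  have hpt : pt W γ (amal hκ.aleph0_le x2.1.val p γ ∅ Set.finite_empty) x2.2 = x2 :=
    pt_eq (x := x2) (by rw [amal_res _ _ x2.1.res_val le_rfl, x2.1.res_val])
  have h4 : ∀ t, (PW.mk W (amal hκ.aleph0_le x2.1.val p γ ∅ Set.finite_empty), st x2.2) ∈
      fnot (meets (P := PW W × S) (e (η t) β)) := fun t =>
    transfer' st e hW hst hlift hκ.aleph0_le (hsupp t β) le_rfl (by rw [hpt]; exact h' t)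
  obtain ⟨z', hz', t, ht⟩ := hcol
    (PW.mk W (amal hκ.aleph0_le x2.1.val p γ ∅ Set.finite_empty), st x2.2)
    ⟨(le_PW st e hW _ _).2 hp', hst _ _ hx2.2⟩ β
  exact h4 t z' hz' ht

include hW hκ h2 hRκ hSκ hR hU hst hlift hsurj he in
/-- the strong polarized relation with fewer than `κ` colours in the extension -/
theorem polarizedCol_PW (hμ : μ.IsRegular) (hκμ : κ < μ)
    (hΓ : ∀ T : μ.ord.ToType → Set L, (∀ α, #(T α) ≤ κ) → ∃ γ, μ ≤ #{α | ∀ l ∈ T α, l < γ})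
    {Θ : Type} (hΘ : #Θ < κ) (x : PW W × S) :
    x ∈ PolarizedCol (PW W × S) μ.ord.ToType κ.ord.ToType Θ := by
  classical
  have hκ0 := hκ.aleph0_le
  have hKκ : #κ.ord.ToType ≤ κ := (mk_ord_toType κ).le
  have hcc := cc_PW st e hW hκ h2 hKκ hRκ hSκ
  have hreg1 := staysRegular_PW st e hW hκ hR hst hlift hsurj
  have hreg2 := staysRegular_of_cc (Q := PW W × S) hκ0 hμ hκμ hcc
  intro c
  refine mem_fimp.2 fun y0 _ hfun => ?_
  -- small names
  choose N hN1 hN2 using fun α β t => exists_nice (Q := PW W × S) hcc (c α β t)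
  choose η hη using fun α t => he (fun β => N α β t) (fun β => hN1 α β t)
  -- the coordinates of the names of many rows are below some `γ`
  obtain ⟨γ, hA0⟩ := hΓ (fun α => ⋃ (t : Θ), ⋃ (β : κ.ord.ToType),
    ⋃ y ∈ (N α β t : Set (Cond κ L (κ.ord.ToType × R) I × S)),
      (Prod.fst '' y.1.s ∪ Prod.fst '' y.1.E)) (by
    intro α
    refine Pool.Agent.Helper669.KDelta.small_iUnion hκ0 hΘ.le _ fun t => ?_
    refine Pool.Agent.Helper669.KDelta.small_iUnion hκ0 hKκ _ fun β => ?_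
    refine Pool.Agent.Helper669.KDelta.small_biUnion hκ0 _ (hN1 α β t) _ fun y _ => ?_
    refine Pool.Agent.Helper669.KDelta.small_union hκ0 ?_ ?_
    · exact mk_image_le.trans y.1.hs.le
    · exact mk_image_le.trans y.1.hE.le)
  obtain ⟨A0, hA0def⟩ : ∃ A0 : Set μ.ord.ToType, A0 = {α | ∀ l ∈ (⋃ (t : Θ),
    ⋃ (β : κ.ord.ToType), ⋃ y ∈ (N α β t : Set (Cond κ L (κ.ord.ToType × R) I × S)),
      (Prod.fst '' y.1.s ∪ Prod.fst '' y.1.E)), l < γ} := ⟨_, rfl⟩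
  rw [← hA0def] at hA0
  have hNγ : ∀ α ∈ A0, ∀ β t, ∀ y ∈ (N α β t : Set (Cond κ L (κ.ord.ToType × R) I × S)),
      Cond.res γ y.1 = y.1 := by
    intro α hα β t y hy
    rw [hA0def] at hα
    ext z
    · refine ⟨fun h => h.1, fun h => ⟨h, hα _ ?_⟩⟩
      simp only [Set.mem_iUnion]
      exact ⟨t, β, y, hy, Or.inl ⟨z, h, rfl⟩⟩
    · refine ⟨fun h => h.1, fun h => ⟨h, hα _ ?_⟩⟩
      simp only [Set.mem_iUnion]
      exact ⟨t, β, y, hy, Or.inr ⟨z, h, rfl⟩⟩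
  obtain ⟨p0, s0⟩ := y0
  obtain ⟨r0, rfl⟩ := hsurj s0
  -- promises
  have hdec : ∀ α ∈ A0, ∃ (p : Cond κ L (κ.ord.ToType × R) I) (r : R) (t : Θ),
      Le W p p0.val ∧ r ≤ r0 ∧ (γ, η α t) ∈ p.E ∧
        pt W γ p r ∈ meets (UU st e W γ (η α t)) := by
    intro α hα
    obtain ⟨x, hx, t, ht⟩ := decide_colour st e hW hκ hU hst hlift hΘ γ (η α) (fun t β => by
      rw [hη α t]
      exact hNγ α hα β t) p0.val r0 (fun z hz β => by
      have hz' : z ≤ (p0, st r0) := ⟨(le_PW st e hW _ _).2 ((le_PW st e hW _ _).1 hz.1), hz.2⟩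
      obtain ⟨z', hz2, t, ht⟩ := IsFun.total (R := c α) (down_IsFun (c α) _ (hfun α) z hz') β
      refine ⟨z', hz2, t, ?_⟩
      rw [hη α t]
      exact (hN2 α β t z').2 ht)
    obtain ⟨p', hp', r', hr', hE, hm⟩ := exists_promise_of st e hW hκ0 p0.val r0 γ (η α t) x hx ht
    exact ⟨p', r', t, hp', hr', hE, hm⟩
  have hA0ne : A0.Nonempty := by
    by_contra hcon
    rw [Set.not_nonempty_iff_eq_empty] at hcon
    rw [hcon, mk_eq_zero] at hA0
    exact absurd hA0 (not_le.2 hμ.pos)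
  obtain ⟨t0⟩ : Nonempty Θ := by
    obtain ⟨α, hα⟩ := hA0ne
    obtain ⟨_, _, t, _⟩ := hdec α hα
    exact ⟨t⟩
  have hex : ∀ α, ∃ (p : Cond κ L (κ.ord.ToType × R) I) (r : R) (t : Θ), α ∈ A0 →
      (Le W p p0.val ∧ r ≤ r0 ∧ (γ, η α t) ∈ p.E ∧
        pt W γ p r ∈ meets (UU st e W γ (η α t))) := by
    intro α
    by_cases h : α ∈ A0
    · obtain ⟨p, r, t, h'⟩ := hdec α h
      exact ⟨p, r, t, fun _ => h'⟩
    · exact ⟨p0.val, r0, t0, fun h' => absurd h' h⟩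
  choose p r t hp using hex
  have hζ : ∀ α, ∃ ζ : κ.ord.ToType, ∀ β r', (γ, (β, r')) ∈ (p α).s → β < ζ := by
    intro α
    have hsm : #((fun z : L × (κ.ord.ToType × R) => z.2.1) '' (p α).s) < κ :=
      mk_image_le.trans_lt (p α).hs
    obtain ⟨ζ, hζ⟩ : ∃ ζ : κ.ord.ToType,
        ∀ β ∈ (fun z : L × (κ.ord.ToType × R) => z.2.1) '' (p α).s, β < ζ := by
      by_contra hcon
      push Not at hcon
      have hunb : IsCofinal ((fun z : L × (κ.ord.ToType × R) => z.2.1) '' (p α).s) := by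
        intro ζ
        obtain ⟨β, hβ, h⟩ := hcon ζ
        exact ⟨β, hβ, h⟩
      have hcof := Order.cof_le hunb
      rw [Ordinal.cof_toType, hκ.cof_ord] at hcof
      exact absurd hsm (not_lt.2 hcof)
    exact ⟨ζ, fun β r' h => hζ β ⟨_, h, rfl⟩⟩
  choose ζ hζ using hζ
  -- pigeonhole
  obtain ⟨⟨t1, ζ0, tt⟩, hA⟩ := exists_fiber_full (Y := R × κ.ord.ToType × Θ) hμ (ι := A0) hA0 (by
    refine lt_of_le_of_lt ?_ hκμ
    rw [mk_prod, mk_prod, lift_id, lift_id, lift_id, lift_id]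
    refine (mul_le_mul' hRκ ((mul_le_mul' hKκ hΘ.le).trans (mul_eq_self hκ0).le)).trans
      (mul_eq_self hκ0).le)
    (fun α => (r α, ζ α, t α))
  obtain ⟨A, hAdef⟩ : ∃ A : Set μ.ord.ToType, A = {α | α ∈ A0 ∧ (r α, ζ α, t α) = (t1, ζ0, tt)} :=
    ⟨_, rfl⟩
  have hAμ : μ ≤ #A := by
    refine hA.trans ?_
    rw [hAdef]
    refine mk_le_of_injective (f := fun i => ⟨i.1.1, i.1.2, i.2⟩) ?_
    intro i j hij
    have h1 : i.1.1 = j.1.1 := congrArg (fun z => z.1) hij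
    exact Subtype.ext (Subtype.ext h1)
  have hA0A : ∀ α ∈ A, α ∈ A0 := fun α hα => by rw [hAdef] at hα; exact hα.1
  have hAr : ∀ α ∈ A, r α = t1 := fun α hα => by
    rw [hAdef] at hα; exact congrArg (fun z => z.1) hα.2
  have hAζ : ∀ α ∈ A, ζ α = ζ0 := fun α hα => by
    rw [hAdef] at hα; exact congrArg (fun z => z.2.1) hα.2
  have hAt : ∀ α ∈ A, t α = tt := fun α hα => by
    rw [hAdef] at hα; exact congrArg (fun z => z.2.2) hα.2
  obtain ⟨α0, hα0, q, hq, hqA⟩ := exists_many_full (Q := PW W × S) hκ0 hμ hκμ hcc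
    hreg2 A hAμ (fun α => (PW.mk W (p α), st t1))
  have hq0 : q ≤ (p0, st r0) := by
    refine hq.trans ⟨?_, hst _ _ ?_⟩
    · exact (le_PW st e hW _ _).2 (hp α0 (hA0A α0 hα0)).1
    · rw [← hAr α0 hα0]
      exact (hp α0 (hA0A α0 hα0)).2.1
  have hqt : q.2 ≤ st t1 := hq.2
  -- the second set
  let B : κ.ord.ToType → Set (PW W × S) := fun β =>
    {z | ζ0 ≤ β ∧ ∃ r' ≤ t1, z.2 ≤ st r' ∧ (γ, (β, r')) ∈ z.1.val.s}
  have hBd : ∀ β, Down (B β) := by
    rintro β z ⟨h1, r', hr', h3, h4⟩ z' hz'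
    exact ⟨h1, r', hr', hz'.2.trans h3, ((le_PW st e hW _ _).1 hz'.1).1 h4⟩
  have hBfull : q ∈ HasFullSize B := by
    refine hasFullSize_of_unbounded hκ0 hreg1 B q fun q' hq' β => ?_
    obtain ⟨t', ht', hst'⟩ := hlift t1 q'.2 (hq'.2.trans hqt)
    obtain ⟨p', hp', r', hr', δ, hδ, hmem⟩ := exists_add st e hW hκ hR hU q'.1.val t' γ
      (Set.Iio β ∪ Set.Iio ζ0) ((mk_union_le _ _).trans_lt (add_lt_of_lt hκ0
        ((mk_le_mk_of_subset Set.Iio_subset_Iic_self).trans_lt (kur_Iic hκ β))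
        ((mk_le_mk_of_subset Set.Iio_subset_Iic_self).trans_lt (kur_Iic hκ ζ0))))
    simp only [Set.mem_union, Set.mem_Iio, not_or, not_lt] at hδ
    refine ⟨(PW.mk W p', st r'), ⟨(le_PW st e hW _ _).2 hp', ?_⟩, δ, hδ.1, ?_⟩
    · rw [← hst']
      exact hst _ _ hr'
    · exact meets_of_mem ⟨hδ.2, r', hr'.trans ht', le_rfl, hmem⟩
  -- homogeneity
  have key : ∀ (α : μ.ord.ToType) (β : κ.ord.ToType) (z : PW W × S),
      z ∈ meets {z : PW W × S | α ∈ A ∧ z ≤ (PW.mk W (p α), st t1)} → z ∈ meets (B β) →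
      ∃ z' ≤ z, z' ∈ meets (c α β tt) := by
    intro α β z h1 h3
    obtain ⟨z1, hz1, z2, ⟨hαA, hz2⟩, hz12⟩ := h1 z le_rfl
    obtain ⟨z3, hz3, hz3B⟩ := exists_of_meets (hBd β) (down_meets _ _ h3 z1 hz1)
    obtain ⟨hβ, r', hr', hz3r, hz3s⟩ := hz3B
    have hle : Le W z3.1.val (p α) := (le_PW st e hW _ _).1 ((hz3.trans (hz12.trans hz2)).1)
    obtain ⟨_, _, hE, hm⟩ := hp α (hA0A α hαA)
    have huse := use_promise st e hW (t := r α) hle (by rw [hAr α hαA]; exact hr') hE hz3s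
      (fun h => absurd (hζ α β r' h) (by rw [hAζ α hαA]; exact not_lt.2 hβ))
    have h6 := transfer st e hW hst hlift hκ0 hz3r (huse.1 hm)
    rw [hη α (t α)] at h6
    have h7 := (hN2 α β (t α) _).1 h6
    rw [hAt α hαA] at h7
    exact ⟨z3, hz3.trans hz1, h7⟩
  refine ⟨q, hq0, mem_fex.2 fun z00 hz00 => ⟨z00, le_rfl,
    fun α => {z : PW W × S | α ∈ A ∧ z ≤ (PW.mk W (p α), st t1)},
    mem_fex.2 fun z0 hz0 => ⟨z0, le_rfl, B, down_full _ _ hqA _ (hz0.trans hz00),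
      down_full _ _ hBfull _ (hz0.trans hz00), mem_fex.2 fun z1 _ => ⟨z1, le_rfl, tt, ?_⟩⟩⟩⟩
  intro α β
  refine mem_fimp.2 fun z _ h => ?_
  exact key α β z h.1 h.2

end

end Pool.Agent.Y582.CR
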